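import Mathlib

/-! A closed polygon through unit vectors whose convex hull contains `0` has length at least `4`,
in every real normed space: the mean distance of a probability measure on a circle of length `L`
is at most `L / 4`. -/

open Finset MeasureTheory

namespace Pool.Agent.Results.MP_768819_an.Four

lemma int_ind {h c : ℝ} (h0 : 0 ≤ c) (h1 : c ≤ h) :
    ∫ s in Set.Ioc 0 h, (Set.Iic c).indicator (fun _ => (1 : ℝ)) s = c := by
  rw [setIntegral_indicator measurableSet_Iic]
  have : Set.Ioc 0 h ∩ Set.Iic c = Set.Ioc 0 c := by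
    ext s; simp only [Set.mem_inter_iff, Set.mem_Ioc, Set.mem_Iic]
    constructor
    · rintro ⟨⟨a, -⟩, b⟩; exact ⟨a, b⟩
    · rintro ⟨a, b⟩; exact ⟨⟨a, b.trans h1⟩, b⟩
  rw [this]; simp [h0]

lemma kernel {ι : Type*} [Fintype ι] (a u : ι → ℝ) {h : ℝ} (hh : 0 ≤ h) (h0 : ∀ i, 0 ≤ u i)
    (h1 : ∀ i, u i ≤ h) : 0 ≤ ∑ i, ∑ j, a i * a j * (h - 2 * |u i - u j|) := by
  let e : ℝ → ℝ → ℝ := fun c s => (Set.Iic c).indicator (fun _ => (1 : ℝ)) s
  have hi : ∀ c, IntegrableOn (e c) (Set.Ioc 0 h) := fun c =>
    (integrableOn_const (by simp)).indicator measurableSet_Iic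
  have hc : IntegrableOn (fun _ : ℝ => (1 : ℝ)) (Set.Ioc 0 h) := integrableOn_const (by simp)
  let g : ι → ι → ℝ → ℝ := fun i j s =>
    a i * a j * (1 - 2 * e (u i) s - 2 * e (u j) s + 4 * e (min (u i) (u j)) s)
  have hg : ∀ i j, IntegrableOn (g i j) (Set.Ioc 0 h) := fun i j =>
    (((hc.sub ((hi _).const_mul 2)).sub ((hi _).const_mul 2)).add ((hi _).const_mul 4)).const_mul _
  have e1 : ∀ i j, a i * a j * (h - 2 * |u i - u j|) = ∫ s in Set.Ioc 0 h, g i j s := by
    intro i j
    simp only [g]
    have i1 : IntegrableOn (fun s => 1 - 2 * e (u i) s) (Set.Ioc 0 h) :=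
      hc.sub ((hi _).const_mul 2)
    have i2 : IntegrableOn (fun s => 1 - 2 * e (u i) s - 2 * e (u j) s) (Set.Ioc 0 h) :=
      i1.sub ((hi _).const_mul 2)
    rw [integral_const_mul, integral_add i2
      ((hi _).const_mul 4), integral_sub i1 ((hi _).const_mul 2),
      integral_sub hc ((hi _).const_mul 2), integral_const_mul, integral_const_mul,
      integral_const_mul, int_ind (h0 i) (h1 i), int_ind (h0 j) (h1 j),
      int_ind (le_min (h0 i) (h0 j)) ((min_le_left _ _).trans (h1 i))]
    congr 1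
    simp only [integral_const, MeasurableSet.univ, measureReal_restrict_apply, Set.univ_inter,
      Real.volume_real_Ioc, sub_zero, smul_eq_mul, mul_one, max_eq_left hh]
    rcases le_total (u i) (u j) with h | h
    · rw [min_eq_left h, abs_of_nonpos (by linarith)]; ring
    · rw [min_eq_right h, abs_of_nonneg (by linarith)]; ring
  simp only [e1]
  simp only [← integral_finset_sum _ fun j _ => hg _ j]
  rw [← integral_finset_sum _ fun i _ => integrable_finset_sum _ fun j _ => hg i j]
  refine integral_nonneg fun s => ?_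
  have : ∑ i, ∑ j, g i j s = (∑ i, a i * (1 - 2 * e (u i) s)) ^ 2 := by
    rw [sq, sum_mul_sum]
    refine sum_congr rfl fun i _ => sum_congr rfl fun j _ => ?_
    simp only [g, e, Set.indicator_apply, Set.mem_Iic, le_min_iff]
    by_cases h1 : s ≤ u i <;> by_cases h2 : s ≤ u j <;> simp [h1, h2] <;> ring
  simp only [Pi.zero_apply, this]
  positivity

lemma circle {ι : Type*} [Fintype ι] (w t : ι → ℝ) {L : ℝ} (hL : 0 ≤ L) (h0 : ∀ i, 0 ≤ t i)
    (h1 : ∀ i, t i ≤ L) (hw : ∑ i, w i = 1) :
    ∑ i, ∑ j, w i * w j * min |t i - t j| (L - |t i - t j|) ≤ L / 4 := by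
  classical
  have := kernel (fun i => if t i ≤ L / 2 then w i else -w i)
    (fun i => if t i ≤ L / 2 then t i else t i - L / 2) (h := L / 2) (by linarith)
    (fun i => by have := h0 i; split_ifs <;> linarith)
    (fun i => by have := h1 i; split_ifs <;> linarith)
  have e : ∀ i j, (if t i ≤ L / 2 then w i else -w i) * (if t j ≤ L / 2 then w j else -w j) *
      (L / 2 - 2 * |(if t i ≤ L / 2 then t i else t i - L / 2) -
        (if t j ≤ L / 2 then t j else t j - L / 2)|) =
      w i * w j * (L / 2) - 2 * (w i * w j * min |t i - t j| (L - |t i - t j|)) := by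
    intro i j
    have a1 := h0 i
    have a2 := h0 j
    have a3 := h1 i
    have a4 := h1 j
    have k : ∀ x y : ℝ, x = y → w i * w j * x = w i * w j * y := fun x y h => by rw [h]
    split_ifs with b1 b2 b2
    · have : min |t i - t j| (L - |t i - t j|) = |t i - t j| := by
        apply min_eq_left; cases abs_cases (t i - t j) <;> linarith
      rw [this]; ring
    · have : min |t i - t j| (L - |t i - t j|) = L / 2 - |t i - (t j - L / 2)| := by
        rw [min_def]
        cases abs_cases (t i - t j) <;> cases abs_cases (t i - (t j - L / 2)) <;>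
          split_ifs <;> linarith
      rw [this]; ring
    · have : min |t i - t j| (L - |t i - t j|) = L / 2 - |t i - L / 2 - t j| := by
        rw [min_def]
        cases abs_cases (t i - t j) <;> cases abs_cases (t i - L / 2 - t j) <;>
          split_ifs <;> linarith
      rw [this]; ring
    · have : min |t i - t j| (L - |t i - t j|) = |t i - L / 2 - (t j - L / 2)| := by
        rw [show t i - L / 2 - (t j - L / 2) = t i - t j by ring]
        apply min_eq_left; cases abs_cases (t i - t j) <;> linarith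
      rw [this]; ring
  simp only [e, sum_sub_distrib, ← mul_sum, ← sum_mul, hw] at this
  linarith

variable {X : Type*} [NormedAddCommGroup X] [NormedSpace ℝ X]

/-- Length of the closed polygon visiting `p (σ 0), p (σ 1), …, p (σ (r - 1)), p (σ 0)`. -/
noncomputable def len {r : ℕ} (p : Fin r → X) (σ : Equiv.Perm (Fin r)) : ℝ :=
  ∑ k, ‖p (σ (finRotate r k)) - p (σ k)‖

lemma chain (q : ℕ → X) {i j : ℕ} (h : i ≤ j) :
    ‖q j - q i‖ ≤ ∑ k ∈ range j, ‖q (k + 1) - q k‖ - ∑ k ∈ range i, ‖q (k + 1) - q k‖ := by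
  induction h with
  | refl => simp
  | @step j _ ih =>
    rw [sum_range_succ]
    have := norm_sub_le_norm_sub_add_norm_sub (q (j + 1)) (q j) (q i)
    simp only [Nat.succ_eq_add_one]
    linarith

theorem result (X : Type*) [NormedAddCommGroup X] [NormedSpace ℝ X] (r : ℕ) (hr : 2 ≤ r)
    (p : Fin r → X) (hp : ∀ i, ‖p i‖ = 1) (h0 : (0 : X) ∈ convexHull ℝ (Set.range p))
    (σ : Equiv.Perm (Fin r)) : 4 ≤ len p σ := by
  obtain ⟨n, rfl⟩ : ∃ n, r = n + 1 := ⟨r - 1, by omega⟩
  rw [← (Equiv.surjective σ).range_comp p, convexHull_range_eq_exists_affineCombination] at h0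
  obtain ⟨s, w0, hw0, hw1, hw2⟩ := h0
  rw [affineCombination_eq_linear_combination _ _ _ hw1] at hw2
  let w : Fin (n + 1) → ℝ := fun i => if i ∈ s then w0 i else 0
  have w1 : ∀ i, 0 ≤ w i := fun i => by
    simp only [w]; split_ifs with h
    · exact hw0 i h
    · exact le_rfl
  have w2 : ∑ i, w i = 1 := by simp [w, hw1]
  have w3 : ∑ i, w i • p (σ i) = 0 := by simpa [w, ite_smul] using hw2
  let q : ℕ → X := fun k => p (σ (Fin.ofNat (n + 1) k))
  have hq : ∀ i : Fin (n + 1), q i = p (σ i) := fun i => by simp [q]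
  let T : ℕ → ℝ := fun j => ∑ k ∈ range j, ‖q (k + 1) - q k‖
  have hL : T (n + 1) = len p σ := by
    simp only [T, len, sum_range]
    refine sum_congr rfl fun k _ => ?_
    have : Fin.ofNat (n + 1) (k + 1) = finRotate (n + 1) k := by
      rw [finRotate_succ_apply]
      ext; simp [Fin.val_add]
    rw [hq]
    simp only [q, this]
  have hT : ∀ i j, i ≤ j → T i ≤ T j := fun i j h => by
    have := (norm_nonneg _).trans (chain q h)
    simp only [T]; linarith
  have hT0 : T 0 = 0 := by simp [T]
  have hqn : q (n + 1) = q 0 := by simp [q]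
  have hd : ∀ i j : ℕ, i ≤ j → j ≤ n + 1 →
      ‖q j - q i‖ ≤ min |T i - T j| (T (n + 1) - |T i - T j|) := by
    intro i j h hj
    have a1 := chain q h
    have a2 := chain q hj
    have a3 := chain q (Nat.zero_le i)
    have a4 := norm_sub_le_norm_sub_add_norm_sub (q j) (q 0) (q i)
    rw [hqn, norm_sub_rev] at a2
    rw [norm_sub_rev] at a3
    rw [abs_of_nonpos (by linarith [hT i j h])]
    simp only [range_zero, sum_empty] at a3
    exact le_min (by simp only [T]; linarith) (by simp only [T]; linarith)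
  have hd' : ∀ i j : Fin (n + 1),
      ‖p (σ i) - p (σ j)‖ ≤ min |T i - T j| (T (n + 1) - |T i - T j|) := by
    intro i j
    rw [← hq, ← hq]
    rcases le_total (i : ℕ) j with h | h
    · rw [norm_sub_rev]; exact hd i j h j.2.le
    · rw [abs_sub_comm]; exact hd j i h i.2.le
  have hc := circle w (fun i => T i) (L := T (n + 1)) (hT0 ▸ hT 0 _ (Nat.zero_le _))
    (fun i => hT0 ▸ hT 0 _ (Nat.zero_le _)) (fun i => hT _ _ i.2.le) w2
  have h1 : ∀ i : Fin (n + 1), 1 ≤ ∑ j, w j * min |T i - T j| (T (n + 1) - |T i - T j|) := by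
    intro i
    have : p (σ i) = ∑ j, w j • (p (σ i) - p (σ j)) := by
      simp only [smul_sub, sum_sub_distrib, w3, ← sum_smul, w2, one_smul, sub_zero]
    rw [← hp (σ i), this]
    refine (norm_sum_le _ _).trans (sum_le_sum fun j _ => ?_)
    rw [norm_smul, Real.norm_of_nonneg (w1 j)]
    exact mul_le_mul_of_nonneg_left (hd' i j) (w1 j)
  have h2 : ∑ i, w i ≤ ∑ i, ∑ j, w i * w j * min |T i - T j| (T (n + 1) - |T i - T j|) := by
    refine sum_le_sum fun i _ => ?_
    simp only [mul_assoc, ← mul_sum]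
    exact le_mul_of_one_le_right (w1 i) (h1 i)
  rw [← hL]
  linarith

end Pool.Agent.Results.MP_768819_an.Four
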